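import Pool.Agent.TwoDens.Bridge

/-!
Recursive graphs (nested subdivisions) and an upper bound for the minimum 2-density.
-/

open Finset

namespace Pool.Agent.TwoDens.K3A.Gq

open Pool.Agent.TwoDens

section Glue

variable {P I : Type}

/-- the pattern `B` on `P` glued to the network `(A, T1, T2)` at the vertices `p1`, `p2` -/
def glue (B : SimpleGraph P) (p1 p2 : P) (A : SimpleGraph I) (T1 T2 : Finset I) :
    SimpleGraph (P ⊕ I) where
  Adj x y := match x, y with
    | Sum.inl p, Sum.inl q => B.Adj p q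
    | Sum.inr u, Sum.inr v => A.Adj u v
    | Sum.inl p, Sum.inr u => (p = p1 ∧ u ∈ T1) ∨ (p = p2 ∧ u ∈ T2)
    | Sum.inr u, Sum.inl p => (p = p1 ∧ u ∈ T1) ∨ (p = p2 ∧ u ∈ T2)
  symm := ⟨fun x y h => by
    rcases x with p | u <;> rcases y with q | v
    · exact B.adj_symm h
    · exact h
    · exact h
    · exact A.adj_symm h⟩
  loopless := ⟨fun x h => by
    rcases x with p | u
    · exact B.loopless.irrefl p h
    · exact A.loopless.irrefl u h⟩

variable [DecidableEq P] [DecidableEq I]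

instance (B : SimpleGraph P) [DecidableRel B.Adj] (p1 p2 : P) (A : SimpleGraph I)
    [DecidableRel A.Adj] (T1 T2 : Finset I) : DecidableRel (glue B p1 p2 A T1 T2).Adj := by
  intro x y
  rcases x with p | u <;> rcases y with q | v
  · exact inferInstanceAs (Decidable (B.Adj p q))
  · exact inferInstanceAs (Decidable ((p = p1 ∧ v ∈ T1) ∨ (p = p2 ∧ v ∈ T2)))
  · exact inferInstanceAs (Decidable ((q = p1 ∧ u ∈ T1) ∨ (q = p2 ∧ u ∈ T2)))
  · exact inferInstanceAs (Decidable (A.Adj u v))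

/-- double sum form -/
theorem e2_sum {V : Type} [DecidableEq V] (G : SimpleGraph V) [DecidableRel G.Adj]
    (S : Finset V) : e2 G S = ∑ x ∈ S, ∑ y ∈ S, if G.Adj x y then 1 else 0 := by
  unfold e2
  refine Finset.sum_congr rfl ?_
  intro x _
  rw [Finset.card_filter]

theorem cross {p1 p2 : P} (hp : p1 ≠ p2) (T1 T2 : Finset I) (S1 : Finset P) (S2 : Finset I) :
    (∑ p ∈ S1, ∑ u ∈ S2, if (p = p1 ∧ u ∈ T1) ∨ (p = p2 ∧ u ∈ T2) then 1 else 0) =
      (if p1 ∈ S1 then (S2 ∩ T1).card else 0) + (if p2 ∈ S1 then (S2 ∩ T2).card else 0) := by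
  have h1 : ∀ p ∈ S1, ∀ u ∈ S2,
      (if (p = p1 ∧ u ∈ T1) ∨ (p = p2 ∧ u ∈ T2) then 1 else 0 : ℕ) =
      (if p = p1 then (if u ∈ T1 then 1 else 0) else 0) +
      (if p = p2 then (if u ∈ T2 then 1 else 0) else 0) := by
    intro p _ u _
    by_cases h1 : p = p1
    · have h2 : p ≠ p2 := fun h => hp (h1.symm.trans h)
      simp [h1, hp]
    · by_cases h2 : p = p2
      · have h3 : p2 ≠ p1 := Ne.symm hp
        simp [h2, h3]
      · simp [h1, h2]
  rw [Finset.sum_congr rfl (fun p hp' => Finset.sum_congr rfl (h1 p hp'))]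
  simp only [Finset.sum_add_distrib]
  congr 1
  · have h2 : ∀ p ∈ S1, (∑ u ∈ S2, if p = p1 then (if u ∈ T1 then 1 else 0) else 0) =
        if p = p1 then (S2 ∩ T1).card else 0 := by
      intro p _
      by_cases h : p = p1
      · simp only [if_pos h]
        rw [← Finset.card_filter, Finset.filter_mem_eq_inter]
      · simp only [if_neg h, Finset.sum_const_zero]
    rw [Finset.sum_congr rfl h2, Finset.sum_ite_eq' S1 p1]
  · have h2 : ∀ p ∈ S1, (∑ u ∈ S2, if p = p2 then (if u ∈ T2 then 1 else 0) else 0) =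
        if p = p2 then (S2 ∩ T2).card else 0 := by
      intro p _
      by_cases h : p = p2
      · simp only [if_pos h]
        rw [← Finset.card_filter, Finset.filter_mem_eq_inter]
      · simp only [if_neg h, Finset.sum_const_zero]
    rw [Finset.sum_congr rfl h2, Finset.sum_ite_eq' S1 p2]

theorem e2_glue (B : SimpleGraph P) [DecidableRel B.Adj] {p1 p2 : P} (hp : p1 ≠ p2)
    (A : SimpleGraph I) [DecidableRel A.Adj] (T1 T2 : Finset I) (S1 : Finset P)
    (S2 : Finset I) :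
    e2 (glue B p1 p2 A T1 T2) (S1.disjSum S2) = e2 B S1 + e2 A S2 +
      2 * ((if p1 ∈ S1 then (S2 ∩ T1).card else 0) +
        (if p2 ∈ S1 then (S2 ∩ T2).card else 0)) := by
  rw [e2_sum, e2_sum, e2_sum]
  rw [Finset.sum_disjSum]
  simp only [Finset.sum_disjSum]
  have ha : ∀ p q, (glue B p1 p2 A T1 T2).Adj (Sum.inl p) (Sum.inl q) ↔ B.Adj p q :=
    fun _ _ => Iff.rfl
  have hb : ∀ u v, (glue B p1 p2 A T1 T2).Adj (Sum.inr u) (Sum.inr v) ↔ A.Adj u v :=
    fun _ _ => Iff.rfl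
  have hc : ∀ p u, (glue B p1 p2 A T1 T2).Adj (Sum.inl p) (Sum.inr u) ↔
      (p = p1 ∧ u ∈ T1) ∨ (p = p2 ∧ u ∈ T2) := fun _ _ => Iff.rfl
  have hd : ∀ p u, (glue B p1 p2 A T1 T2).Adj (Sum.inr u) (Sum.inl p) ↔
      (p = p1 ∧ u ∈ T1) ∨ (p = p2 ∧ u ∈ T2) := fun _ _ => Iff.rfl
  simp only [ha, hb, hc, hd, Finset.sum_add_distrib]
  have h1 := cross hp T1 T2 S1 S2
  have h2 : (∑ u ∈ S2, ∑ p ∈ S1, if (p = p1 ∧ u ∈ T1) ∨ (p = p2 ∧ u ∈ T2) then 1 else 0) =
      (if p1 ∈ S1 then (S2 ∩ T1).card else 0) + (if p2 ∈ S1 then (S2 ∩ T2).card else 0) := by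
    rw [Finset.sum_comm]
    exact h1
  rw [h1, h2]
  ring

omit [DecidableEq P] [DecidableEq I] in
theorem exists_parts (S : Finset (P ⊕ I)) :
    ∃ (S1 : Finset P) (S2 : Finset I), S = S1.disjSum S2 :=
  ⟨S.toLeft, S.toRight, (Finset.toLeft_disjSum_toRight).symm⟩

omit [DecidableEq P] in
theorem indep_glue {B : SimpleGraph P} {p1 p2 : P} {A : SimpleGraph I} {T1 T2 : Finset I}
    {S1 : Finset P} {S2 : Finset I}
    (h : (glue B p1 p2 A T1 T2).IsIndepSet ((S1.disjSum S2 : Finset (P ⊕ I)) : Set (P ⊕ I))) :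
    (∀ p ∈ S1, ∀ q ∈ S1, ¬ B.Adj p q) ∧ A.IsIndepSet (S2 : Set I) ∧
      (p1 ∈ S1 → S2 ∩ T1 = ∅) ∧ (p2 ∈ S1 → S2 ∩ T2 = ∅) := by
  refine ⟨?_, ?_, ?_, ?_⟩
  · intro p hp q hq hpq
    have h1 := h (Finset.mem_coe.2 (Finset.inl_mem_disjSum.2 hp))
      (Finset.mem_coe.2 (Finset.inl_mem_disjSum.2 hq))
      (fun hh => hpq.ne (Sum.inl_injective hh))
    exact h1 hpq
  · intro u hu v hv huv hA
    have h1 := h (Finset.mem_coe.2 (Finset.inr_mem_disjSum.2 (Finset.mem_coe.1 hu)))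
      (Finset.mem_coe.2 (Finset.inr_mem_disjSum.2 (Finset.mem_coe.1 hv)))
      (fun hh => huv (Sum.inr_injective hh))
    exact h1 hA
  · intro hp
    rw [Finset.eq_empty_iff_forall_notMem]
    intro u hu
    rw [Finset.mem_inter] at hu
    have h1 := h (Finset.mem_coe.2 (Finset.inl_mem_disjSum.2 hp))
      (Finset.mem_coe.2 (Finset.inr_mem_disjSum.2 hu.1)) (fun hh => by cases hh)
    exact h1 (Or.inl ⟨rfl, hu.2⟩)
  · intro hp
    rw [Finset.eq_empty_iff_forall_notMem]
    intro u hu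
    rw [Finset.mem_inter] at hu
    have h1 := h (Finset.mem_coe.2 (Finset.inl_mem_disjSum.2 hp))
      (Finset.mem_coe.2 (Finset.inr_mem_disjSum.2 hu.1)) (fun hh => by cases hh)
    exact h1 (Or.inr ⟨rfl, hu.2⟩)

end Glue

/-- the edges of the layer -/
def tb (x y : Fin 7) : Bool :=
  ([(3, 4), (4, 2), (0, 2), (1, 5), (5, 6), (6, 2)] : List (Fin 7 × Fin 7)).any
    (fun p => (p.1 == x && p.2 == y) || (p.1 == y && p.2 == x))

/-- the layer -/
def B7 : SimpleGraph (Fin 7) where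
  Adj x y := tb x y = true
  symm := ⟨by decide⟩
  loopless := ⟨by decide⟩

instance : DecidableRel B7.Adj := fun x y => inferInstanceAs (Decidable (tb x y = true))

/-- the finite table -/
theorem tab : ∀ S : Finset (Fin 7),
    (1 ≤ S.card → 7 * e2 B7 S + 18 ≤ 18 * S.card) ∧
    (2 ≤ S.card → 7 * e2 B7 S + 22 ≤ 18 * S.card) ∧
    (1 ≤ S.card → 7 * e2 B7 S + 14 * (S ∩ {1, 3}).card + 4 ≤ 18 * S.card) ∧
    (1 ≤ S.card → 7 * e2 B7 S + 14 * (S ∩ {0}).card + 4 ≤ 18 * S.card) ∧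
    (7 * e2 B7 S + 14 * (S ∩ {1, 3}).card + 14 * (S ∩ {0}).card ≤ 18 * S.card + 4) := by
  decide +kernel

theorem tab2 : ∀ S : Finset (Fin 7), 0 ∈ S → 1 ∈ S →
    7 * e2 B7 S + 28 ≤ 18 * S.card ∧
    7 * e2 B7 S + 14 * (S ∩ {1, 3}).card + 10 ≤ 18 * S.card ∧
    7 * e2 B7 S + 14 * (S ∩ {0}).card + 10 ≤ 18 * S.card ∧
    7 * e2 B7 S + 14 * (S ∩ {1, 3}).card + 14 * (S ∩ {0}).card ≤ 18 * S.card ∧
    (S.card = 7 ∨
      7 * e2 B7 S + 14 * (S ∩ {1, 3}).card + 14 * (S ∩ {0}).card + 2 ≤ 18 * S.card) := by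
  decide +kernel

theorem tab3 : ∀ S : Finset (Fin 7), (∀ p ∈ S, ∀ q ∈ S, ¬ B7.Adj p q) →
    S.card ≤ 4 ∧ (¬ (0 ∈ S ∧ 1 ∈ S) → S.card ≤ 3) ∧
    (S ∩ {1, 3} = ∅ → S ∩ {0} = ∅ → S.card ≤ 2) := by
  decide +kernel

/-- the properties of the network number `k` -/
def Net (k : ℕ) (I : Type) [Fintype I] [DecidableEq I] (A : SimpleGraph I)
    [DecidableRel A.Adj] (T1 T2 : Finset I) : Prop :=
  Fintype.card I = 7 * k + 2 ∧
  (∀ S : Finset I, (1 ≤ S.card → 7 * e2 A S + 18 ≤ 18 * S.card) ∧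
    (2 ≤ S.card → 7 * e2 A S + 22 ≤ 18 * S.card) ∧
    (1 ≤ S.card → 7 * e2 A S + 14 * (S ∩ T1).card + 4 ≤ 18 * S.card) ∧
    (1 ≤ S.card → 7 * e2 A S + 14 * (S ∩ T2).card + 4 ≤ 18 * S.card) ∧
    (7 * e2 A S + 14 * (S ∩ T1).card + 14 * (S ∩ T2).card ≤ 18 * S.card + 6) ∧
    (7 * e2 A S + 14 * (S ∩ T1).card + 14 * (S ∩ T2).card ≤ 18 * S.card + 4 ∨
      S.card = 7 * k + 2)) ∧
  (∀ S : Finset I, A.IsIndepSet (S : Set I) → S.card ≤ 3 * k + 1) ∧
  (∀ S : Finset I, A.IsIndepSet (S : Set I) → S ∩ T1 = ∅ → S ∩ T2 = ∅ → S.card ≤ 3 * k)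

/-- existence of the network number `k` -/
def NetE (k : ℕ) : Prop :=
  ∃ (I : Type) (_ : Fintype I) (_ : DecidableEq I) (A : SimpleGraph I)
    (_ : DecidableRel A.Adj) (T1 T2 : Finset I), Net k I A T1 T2

/-- the path of length three -/
def P2 : SimpleGraph (Fin 2) where
  Adj x y := x ≠ y
  symm := ⟨by decide⟩
  loopless := ⟨by decide⟩

instance : DecidableRel P2.Adj := fun x y => inferInstanceAs (Decidable (x ≠ y))

theorem net_zero : NetE 0 := by
  refine ⟨Fin 2, inferInstance, inferInstance, P2, inferInstance, {0}, {1}, ?_, ?_, ?_, ?_⟩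
  · decide
  · decide +kernel
  · intro S hS
    by_contra hc
    have h1 : S = Finset.univ := by
      rw [← Finset.card_eq_iff_eq_univ, Fintype.card_fin]
      have := Finset.card_le_univ S
      rw [Fintype.card_fin] at this
      omega
    subst h1
    exact hS (Finset.mem_coe.2 (Finset.mem_univ 0)) (Finset.mem_coe.2 (Finset.mem_univ 1))
      (by decide) (by decide)
  · intro S _ h1 h2
    have h3 : ∀ S : Finset (Fin 2), S ∩ {0} = ∅ → S ∩ {1} = ∅ → S.card ≤ 3 * 0 := by decide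
    exact h3 S h1 h2

theorem inter_map {P I : Type} [DecidableEq P] [DecidableEq I] (S1 R : Finset P)
    (S2 : Finset I) :
    (S1.disjSum S2) ∩ (R.disjSum ∅) = (S1 ∩ R).disjSum ∅ := by
  ext x
  rcases x with p | u
  · simp
  · simp

theorem net_succ {k : ℕ} (h : NetE k) : NetE (k + 1) := by
  obtain ⟨I, _, _, A, _, T1, T2, hc, hd, ha, hb⟩ := h
  refine ⟨Fin 7 ⊕ I, inferInstance, inferInstance, glue B7 0 1 A T1 T2, inferInstance,
    Finset.disjSum {1, 3} ∅, Finset.disjSum {0} ∅, ?_, ?_, ?_, ?_⟩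
  · rw [Fintype.card_sum, Fintype.card_fin, hc]
    ring
  · intro S
    obtain ⟨S1, S2, rfl⟩ := exists_parts S
    rw [inter_map, inter_map, Finset.card_disjSum, Finset.card_disjSum, Finset.card_disjSum,
      Finset.card_empty, e2_glue B7 (by decide) A T1 T2 S1 S2]
    obtain ⟨d1, d2, d3, d4, d5, d6⟩ := hd S2
    obtain ⟨t1, t2, t3, t4, t5⟩ := tab S1
    have t6 := tab2 S1
    have he : S2.card = 0 → e2 A S2 = 0 ∧ (S2 ∩ T1).card = 0 ∧ (S2 ∩ T2).card = 0 := by
      intro h0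
      rw [Finset.card_eq_zero] at h0
      subst h0
      simp [e2]
    have he1 : S1.card = 0 → e2 B7 S1 = 0 ∧ (S1 ∩ {1, 3}).card = 0 ∧ (S1 ∩ {0}).card = 0 := by
      intro h0
      rw [Finset.card_eq_zero] at h0
      subst h0
      simp [e2]
    have hc1 : 0 ∈ S1 → 1 ≤ S1.card := fun h => Finset.card_pos.2 ⟨_, h⟩
    have hc2 : 1 ∈ S1 → 1 ≤ S1.card := fun h => Finset.card_pos.2 ⟨_, h⟩
    by_cases h1 : 0 ∈ S1
    · by_cases h2 : 1 ∈ S1
      · obtain ⟨u1, u2, u3, u4, u5⟩ := t6 h1 h2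
        have hc1' := hc1 h1
        rw [if_pos h1, if_pos h2]
        clear t6 hc1 hc2
        refine ⟨fun _ => by omega, fun _ => by omega, fun _ => by omega, fun _ => by omega,
          by omega, ?_⟩
        rcases d6 with d6 | d6
        · left
          omega
        · rcases u5 with u5 | u5
          · right
            omega
          · left
            omega
      · have hc1' := hc1 h1
        rw [if_pos h1, if_neg h2]
        clear t6 hc1 hc2
        refine ⟨fun _ => by omega, fun _ => by omega, fun _ => by omega, fun _ => by omega,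
          by omega, Or.inl (by omega)⟩
    · by_cases h2 : 1 ∈ S1
      · have hc1' := hc2 h2
        rw [if_neg h1, if_pos h2]
        clear t6 hc1 hc2
        refine ⟨fun _ => by omega, fun _ => by omega, fun _ => by omega, fun _ => by omega,
          by omega, Or.inl (by omega)⟩
      · rw [if_neg h1, if_neg h2]
        clear t6 hc1 hc2
        refine ⟨fun _ => by omega, fun _ => by omega, fun _ => by omega, fun _ => by omega,
          by omega, Or.inl (by omega)⟩
  · intro S hS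
    obtain ⟨S1, S2, rfl⟩ := exists_parts S
    obtain ⟨i1, i2, i3, i4⟩ := indep_glue hS
    obtain ⟨t1, t2, t3⟩ := tab3 S1 i1
    rw [Finset.card_disjSum]
    have h1 := ha S2 i2
    by_cases h2 : 0 ∈ S1 ∧ 1 ∈ S1
    · have h3 := hb S2 i2 (i3 h2.1) (i4 h2.2)
      omega
    · have h3 := t2 h2
      omega
  · intro S hS hT1 hT2
    obtain ⟨S1, S2, rfl⟩ := exists_parts S
    obtain ⟨i1, i2, i3, i4⟩ := indep_glue hS
    obtain ⟨t1, t2, t3⟩ := tab3 S1 i1
    rw [inter_map, Finset.disjSum_eq_empty] at hT1 hT2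
    rw [Finset.card_disjSum]
    have h1 := ha S2 i2
    have h3 := t3 hT1.1 hT2.1
    omega

theorem net (k : ℕ) : NetE k := by
  induction k with
  | zero => exact net_zero
  | succ k ih => exact net_succ ih

/-- a graph with `m` vertices, no independent set with more than `a` elements, and sparse -/
def Good (q m a : ℕ) : Prop :=
  ∃ (V : Type) (_ : Fintype V) (_ : DecidableEq V) (G : SimpleGraph V)
    (_ : DecidableRel G.Adj), Fintype.card V = m ∧
    (∀ I : Finset V, G.IsIndepSet (I : Set V) → I.card ≤ a) ∧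
    (∀ S : Finset V, (1 ≤ S.card → 7 * e2 G S + 18 ≤ 18 * S.card) ∧
      (2 ≤ S.card → 7 * e2 G S + 22 ≤ 18 * S.card ∨
        (7 * e2 G S + 20 ≤ 18 * S.card ∧ 7 * q ≤ S.card + 2)))

/-- the star with two edges -/
def tc (x y : Fin 3) : Bool :=
  (x == 0 && y == 1) || (x == 1 && y == 0) || (x == 0 && y == 2) || (x == 2 && y == 0)

/-- the closing part -/
def B3 : SimpleGraph (Fin 3) where
  Adj x y := tc x y = true
  symm := ⟨by decide⟩
  loopless := ⟨by decide⟩

instance : DecidableRel B3.Adj := fun x y => inferInstanceAs (Decidable (tc x y = true))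

theorem tabc : ∀ S : Finset (Fin 3),
    (1 ≤ S.card → 7 * e2 B3 S + 18 ≤ 18 * S.card) ∧
    (2 ≤ S.card → 7 * e2 B3 S + 22 ≤ 18 * S.card) ∧
    (1 ∈ S → 2 ∈ S → 7 * e2 B3 S + 26 ≤ 18 * S.card) ∧
    (1 ∈ S → 2 ∈ S → S.card = 3 ∨ 7 * e2 B3 S + 28 ≤ 18 * S.card) := by
  decide +kernel

theorem tabc3 : ∀ S : Finset (Fin 3), (∀ p ∈ S, ∀ q ∈ S, ¬ B3.Adj p q) →
    S.card ≤ 2 ∧ (¬ (1 ∈ S ∧ 2 ∈ S) → S.card ≤ 1) := by
  decide +kernel

theorem good_one {q p : ℕ} (hq : 1 ≤ q) (hp : q ≤ p) : Good q (7 * p - 2) (3 * p - 1) := by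
  obtain ⟨k, rfl⟩ : ∃ k, p = k + 1 := ⟨p - 1, by omega⟩
  obtain ⟨I, _, _, A, _, T1, T2, hc, hd, ha, hb⟩ := net k
  refine ⟨Fin 3 ⊕ I, inferInstance, inferInstance, glue B3 1 2 A T1 T2, inferInstance,
    ?_, ?_, ?_⟩
  · rw [Fintype.card_sum, Fintype.card_fin, hc]
    omega
  · intro S hS
    obtain ⟨S1, S2, rfl⟩ := exists_parts S
    obtain ⟨i1, i2, i3, i4⟩ := indep_glue hS
    obtain ⟨t1, t2⟩ := tabc3 S1 i1
    rw [Finset.card_disjSum]
    have h1 := ha S2 i2
    by_cases h2 : 1 ∈ S1 ∧ 2 ∈ S1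
    · have h3 := hb S2 i2 (i3 h2.1) (i4 h2.2)
      omega
    · have h3 := t2 h2
      omega
  · intro S
    obtain ⟨S1, S2, rfl⟩ := exists_parts S
    rw [Finset.card_disjSum, e2_glue B3 (by decide) A T1 T2 S1 S2]
    obtain ⟨d1, d2, d3, d4, d5, d6⟩ := hd S2
    obtain ⟨t1, t2, t3, t4⟩ := tabc S1
    have he : S2.card = 0 → e2 A S2 = 0 ∧ (S2 ∩ T1).card = 0 ∧ (S2 ∩ T2).card = 0 := by
      intro h0
      rw [Finset.card_eq_zero] at h0
      subst h0
      simp [e2]
    have he1 : S1.card = 0 → e2 B3 S1 = 0 := by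
      intro h0
      rw [Finset.card_eq_zero] at h0
      subst h0
      simp [e2]
    have hc1 : 1 ∈ S1 → 1 ≤ S1.card := fun h => Finset.card_pos.2 ⟨_, h⟩
    have hc2 : 2 ∈ S1 → 1 ≤ S1.card := fun h => Finset.card_pos.2 ⟨_, h⟩
    by_cases h1 : 1 ∈ S1
    · have hc1' := hc1 h1
      by_cases h2 : 2 ∈ S1
      · have t3' := t3 h1 h2
        have t4' := t4 h1 h2
        rw [if_pos h1, if_pos h2]
        clear t3 t4 hc1 hc2
        refine ⟨fun _ => by omega, fun _ => ?_⟩
        rcases t4' with t4' | t4'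
        · rcases d6 with d6 | d6
          · left
            omega
          · right
            omega
        · left
          omega
      · rw [if_pos h1, if_neg h2]
        clear t3 t4 hc1 hc2
        exact ⟨fun _ => by omega, fun _ => Or.inl (by omega)⟩
    · by_cases h2 : 2 ∈ S1
      · have hc1' := hc2 h2
        rw [if_neg h1, if_pos h2]
        clear t3 t4 hc1 hc2
        exact ⟨fun _ => by omega, fun _ => Or.inl (by omega)⟩
      · rw [if_neg h1, if_neg h2]
        clear t3 t4 hc1 hc2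
        exact ⟨fun _ => by omega, fun _ => Or.inl (by omega)⟩

/-- disjoint union -/
def dun {P I : Type} (B : SimpleGraph P) (A : SimpleGraph I) : SimpleGraph (P ⊕ I) where
  Adj x y := match x, y with
    | Sum.inl p, Sum.inl q => B.Adj p q
    | Sum.inr u, Sum.inr v => A.Adj u v
    | Sum.inl _, Sum.inr _ => False
    | Sum.inr _, Sum.inl _ => False
  symm := ⟨fun x y h => by
    rcases x with p | u <;> rcases y with q | v
    · exact B.adj_symm h
    · exact h
    · exact h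
    · exact A.adj_symm h⟩
  loopless := ⟨fun x h => by
    rcases x with p | u
    · exact B.loopless.irrefl p h
    · exact A.loopless.irrefl u h⟩

instance {P I : Type} (B : SimpleGraph P) [DecidableRel B.Adj] (A : SimpleGraph I)
    [DecidableRel A.Adj] : DecidableRel (dun B A).Adj := by
  intro x y
  rcases x with p | u <;> rcases y with q | v
  · exact inferInstanceAs (Decidable (B.Adj p q))
  · exact inferInstanceAs (Decidable False)
  · exact inferInstanceAs (Decidable False)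
  · exact inferInstanceAs (Decidable (A.Adj u v))

theorem e2_dun {P I : Type} [DecidableEq P] [DecidableEq I] (B : SimpleGraph P)
    [DecidableRel B.Adj] (A : SimpleGraph I) [DecidableRel A.Adj] (S1 : Finset P)
    (S2 : Finset I) :
    e2 (dun B A) (S1.disjSum S2) = e2 B S1 + e2 A S2 := by
  rw [e2_sum, e2_sum, e2_sum]
  rw [Finset.sum_disjSum]
  simp only [Finset.sum_disjSum]
  have ha : ∀ p q, (dun B A).Adj (Sum.inl p) (Sum.inl q) ↔ B.Adj p q := fun _ _ => Iff.rfl
  have hb : ∀ u v, (dun B A).Adj (Sum.inr u) (Sum.inr v) ↔ A.Adj u v := fun _ _ => Iff.rfl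
  have hc : ∀ p u, (dun B A).Adj (Sum.inl p) (Sum.inr u) ↔ False := fun _ _ => Iff.rfl
  have hd : ∀ p u, (dun B A).Adj (Sum.inr u) (Sum.inl p) ↔ False := fun _ _ => Iff.rfl
  simp only [ha, hb, hc, hd, if_false, Finset.sum_const_zero, add_zero, zero_add]

theorem good_add {q m a m' a' : ℕ} (h : Good q m a) (h' : Good q m' a') :
    Good q (m + m') (a + a') := by
  obtain ⟨V, _, _, G, _, g1, g2, g3⟩ := h
  obtain ⟨W, _, _, H, _, h1, h2, h3⟩ := h'
  refine ⟨V ⊕ W, inferInstance, inferInstance, dun G H, inferInstance, ?_, ?_, ?_⟩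
  · rw [Fintype.card_sum, g1, h1]
  · intro S hS
    obtain ⟨S1, S2, rfl⟩ := exists_parts S
    rw [Finset.card_disjSum]
    refine Nat.add_le_add (g2 S1 ?_) (h2 S2 ?_)
    · intro u hu v hv huv hA
      exact hS (Finset.mem_coe.2 (Finset.inl_mem_disjSum.2 (Finset.mem_coe.1 hu)))
        (Finset.mem_coe.2 (Finset.inl_mem_disjSum.2 (Finset.mem_coe.1 hv)))
        (fun hh => huv (Sum.inl_injective hh)) hA
    · intro u hu v hv huv hA
      exact hS (Finset.mem_coe.2 (Finset.inr_mem_disjSum.2 (Finset.mem_coe.1 hu)))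
        (Finset.mem_coe.2 (Finset.inr_mem_disjSum.2 (Finset.mem_coe.1 hv)))
        (fun hh => huv (Sum.inr_injective hh)) hA
  · intro S
    obtain ⟨S1, S2, rfl⟩ := exists_parts S
    rw [Finset.card_disjSum, e2_dun]
    obtain ⟨d1, d2⟩ := g3 S1
    obtain ⟨e1', e2'⟩ := h3 S2
    have he : S2.card = 0 → e2 H S2 = 0 := by
      intro h0
      rw [Finset.card_eq_zero] at h0
      subst h0
      simp [e2]
    have he1 : S1.card = 0 → e2 G S1 = 0 := by
      intro h0
      rw [Finset.card_eq_zero] at h0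
      subst h0
      simp [e2]
    refine ⟨fun _ => by omega, fun _ => ?_⟩
    rcases Nat.eq_zero_or_pos S1.card with h4 | h4
    · have h5 := he1 h4
      rcases e2' (by omega) with h6 | h6
      · left
        omega
      · right
        omega
    · rcases Nat.eq_zero_or_pos S2.card with h5 | h5
      · have h6 := he h5
        rcases d2 (by omega) with h7 | h7
        · left
          omega
        · right
          omega
      · left
        have h6 := d1 h4
        have h7 := e1' h5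
        omega

/-- `H` components with `p` in total -/
theorem good_many {q : ℕ} (hq : 1 ≤ q) (H : ℕ) : ∀ p, q * (H + 1) ≤ p →
    Good q (7 * p - 2 * (H + 1)) (3 * p - (H + 1)) := by
  induction H with
  | zero =>
    intro p hp
    have h1 := good_one hq (by omega : q ≤ p)
    exact h1
  | succ H ih =>
    intro p hp
    have h0 : q * (H + 1 + 1) = q * (H + 1) + q := by ring
    have h00 : H + 1 ≤ q * (H + 1) := Nat.le_mul_of_pos_left _ hq
    have h1 := ih (p - q) (by omega)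
    have h2 := good_add h1 (good_one hq (le_refl q))
    have h3 : 7 * (p - q) - 2 * (H + 1) + (7 * q - 2) = 7 * p - 2 * (H + 1 + 1) := by omega
    have h4 : 3 * (p - q) - (H + 1) + (3 * q - 1) = 3 * p - (H + 1 + 1) := by omega
    rw [h3, h4] at h2
    exact h2

/-- the upper bound for `s < 3 i` -/
theorem upperG (s i q : ℕ) (hq : 1 ≤ q) (hs : s < 3 * i) (h : q * (3 * i - s) ≤ i) :
    minTwoDensity (2 * s + i) (s + 1) ≤ (9 * (q : ℝ) - 5) / (7 * q - 4) := by
  have hqR : (1 : ℝ) ≤ q := by exact_mod_cast hq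
  have hpos : (0 : ℝ) < 7 * q - 4 := by linarith
  obtain ⟨H, hH⟩ : ∃ H, 3 * i - s = H + 1 := ⟨3 * i - s - 1, by omega⟩
  rw [hH] at h
  obtain ⟨V, _, _, G, _, g1, g2, g3⟩ := good_many hq H i h
  refine minTwoDensity_le (div_nonneg (by linarith) hpos.le) G ?_ ?_ ?_
  · rw [g1]
    omega
  · intro I hI
    have := g2 I hI
    omega
  · intro Y hY
    have hYR : (3 : ℝ) ≤ Y.card := by exact_mod_cast hY
    have h5 : (9 * (q : ℝ) - 5) / (7 * q - 4) * (7 * q - 4) = 9 * q - 5 :=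
      div_mul_cancel₀ _ hpos.ne'
    have hne : (7 : ℝ) * q - 4 ≠ 0 := hpos.ne'
    have hne2 : (7 : ℝ) * (7 * q - 4) ≠ 0 := mul_ne_zero (by norm_num) hne
    have h7 : (9 * (q : ℝ) - 5) / (7 * q - 4) = 9 / 7 + 1 / (7 * (7 * q - 4)) := by
      rw [div_add_div _ _ (by norm_num) hne2, div_eq_div_iff hne (mul_ne_zero (by norm_num) hne2)]
      ring
    have h8 : (0 : ℝ) < 1 / (7 * (7 * q - 4)) := by positivity
    have h9 : 1 / (7 * (7 * (q : ℝ) - 4)) * (7 * q - 4) = 1 / 7 := by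
      field_simp
    rcases (g3 Y).2 (by omega) with h1 | ⟨h1, h2⟩
    · have h3 : (7 * (e2 G Y : ℝ)) + 22 ≤ 18 * Y.card := by exact_mod_cast h1
      rw [h7]
      nlinarith
    · have h3 : (7 * (e2 G Y : ℝ)) + 20 ≤ 18 * Y.card := by exact_mod_cast h1
      have h4 : (7 * (q : ℝ)) ≤ Y.card + 2 := by exact_mod_cast h2
      rw [h7]
      nlinarith

end Pool.Agent.TwoDens.K3A.Gq
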