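import Pool.Agent.K3A.NatG

/-!
The graphs `G_q`, `q = Q + 1`, on `7 Q + 5` vertices: a Hamiltonian cycle `0, 1, ..., 7 Q + 4`
with the chords `0, 7 j + 6` and `7 j + 3, 7 j + 9` for `j < Q`.  The independence number is at
most `3 Q + 2`, and every set of at least two vertices is sparse.
-/

open Finset

namespace Pool.Agent.TwoDens.K3A

/-- smaller neighbours in `G_q`, `q = Q + 1` -/
def hubD (Q n : ℕ) : Finset ℕ :=
  if n = 0 then ∅ else if n % 7 = 6 ∨ n = 7 * Q + 4 then {n - 1, 0}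
  else if n % 7 = 2 ∧ 9 ≤ n then {n - 1, n - 6} else {n - 1}

theorem hubD_zero (Q : ℕ) : hubD Q 0 = ∅ := by
  unfold hubD
  rw [if_pos rfl]

theorem hubD_one {Q n : ℕ} (h0 : n ≠ 0) (h1 : n % 7 ≠ 6) (h2 : n ≠ 7 * Q + 4)
    (h3 : n % 7 ≠ 2 ∨ n < 9) : hubD Q n = {n - 1} := by
  unfold hubD
  rw [if_neg h0, if_neg (by omega), if_neg (by omega)]

theorem hubD_hub {Q n : ℕ} (h0 : n ≠ 0) (h1 : n % 7 = 6 ∨ n = 7 * Q + 4) :
    hubD Q n = {n - 1, 0} := by
  unfold hubD
  rw [if_neg h0, if_pos h1]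

theorem hubD_two {Q n : ℕ} (h1 : n % 7 = 2) (h2 : 9 ≤ n) :
    hubD Q n = {n - 1, n - 6} := by
  unfold hubD
  rw [if_neg (by omega), if_neg (by omega), if_pos ⟨h1, h2⟩]

/-- the graph -/
abbrev hub (Q : ℕ) : SimpleGraph ℕ := dnG (hubD Q)

theorem e2_base (Q : ℕ) (S : Finset ℕ) :
    e2 (hub Q) (blw S 3) = 2 * (bt S 1 * bt S 0 + bt S 2 * bt S 1) := by
  have h0 := e2_blw_succ (D := hubD Q) S (n := 0) (fun y hy => by
    rw [hubD_zero] at hy
    exact absurd hy (notMem_empty y))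
  have h1 := e2_blw_one (D := hubD Q) S (n := 1) (p := 0)
    (hubD_one (by omega) (by omega) (by omega) (by omega)) (by omega)
  have h2 := e2_blw_one (D := hubD Q) S (n := 2) (p := 1)
    (hubD_one (by omega) (by omega) (by omega) (by omega)) (by omega)
  rw [hubD_zero, sum_empty, mul_zero, mul_zero, Nat.add_zero, blw_zero] at h0
  have h3 : e2 (hub Q) ∅ = 0 := by
    unfold e2
    exact sum_empty
  rw [h2, h1, h0, h3]
  ring

theorem card_base (S : Finset ℕ) : (blw S 3).card = bt S 0 + bt S 1 + bt S 2 := by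
  have h0 : (blw S 1).card = (blw S 0).card + bt S 0 := card_blw_succ S 0
  have h1 : (blw S 2).card = (blw S 1).card + bt S 1 := card_blw_succ S 1
  have h2 : (blw S 3).card = (blw S 2).card + bt S 2 := card_blw_succ S 2
  rw [blw_zero, card_empty] at h0
  omega

theorem card_level (S : Finset ℕ) (j : ℕ) :
    (blw S (7 * j + 10)).card = (blw S (7 * j + 3)).card +
      (bt S (7 * j + 3) + bt S (7 * j + 4) + bt S (7 * j + 5) + bt S (7 * j + 6) +
        bt S (7 * j + 7) + bt S (7 * j + 8) + bt S (7 * j + 9)) := by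
  have h0 := card_blw_succ S (7 * j + 3)
  have h1 := card_blw_succ S (7 * j + 4)
  have h2 := card_blw_succ S (7 * j + 5)
  have h3 := card_blw_succ S (7 * j + 6)
  have h4 := card_blw_succ S (7 * j + 7)
  have h5 := card_blw_succ S (7 * j + 8)
  have h6 := card_blw_succ S (7 * j + 9)
  simp only [Nat.add_assoc, Nat.reduceAdd] at h0 h1 h2 h3 h4 h5 h6 ⊢
  omega

theorem e2_level {Q : ℕ} (S : Finset ℕ) {j : ℕ} (hj : j < Q) :
    e2 (hub Q) (blw S (7 * j + 10)) = e2 (hub Q) (blw S (7 * j + 3)) +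
      2 * (bt S (7 * j + 3) * bt S (7 * j + 2) + bt S (7 * j + 4) * bt S (7 * j + 3) +
        bt S (7 * j + 5) * bt S (7 * j + 4) + bt S (7 * j + 6) * (bt S (7 * j + 5) + bt S 0) +
        bt S (7 * j + 7) * bt S (7 * j + 6) + bt S (7 * j + 8) * bt S (7 * j + 7) +
        bt S (7 * j + 9) * (bt S (7 * j + 8) + bt S (7 * j + 3))) := by
  have h0 := e2_blw_one (D := hubD Q) S (n := 7 * j + 3) (p := 7 * j + 2)
    (hubD_one (by omega) (by omega) (by omega) (by omega)) (by omega)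
  have h1 := e2_blw_one (D := hubD Q) S (n := 7 * j + 4) (p := 7 * j + 3)
    (hubD_one (by omega) (by omega) (by omega) (by omega)) (by omega)
  have h2 := e2_blw_one (D := hubD Q) S (n := 7 * j + 5) (p := 7 * j + 4)
    (hubD_one (by omega) (by omega) (by omega) (by omega)) (by omega)
  have h3 := e2_blw_two (D := hubD Q) S (n := 7 * j + 6) (p := 7 * j + 5) (q := 0)
    (hubD_hub (by omega) (by omega)) (by omega) (by omega) (by omega)
  have h4 := e2_blw_one (D := hubD Q) S (n := 7 * j + 7) (p := 7 * j + 6)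
    (hubD_one (by omega) (by omega) (by omega) (by omega)) (by omega)
  have h5 := e2_blw_one (D := hubD Q) S (n := 7 * j + 8) (p := 7 * j + 7)
    (hubD_one (by omega) (by omega) (by omega) (by omega)) (by omega)
  have h6 := e2_blw_two (D := hubD Q) S (n := 7 * j + 9) (p := 7 * j + 8) (q := 7 * j + 3)
    (hubD_two (by omega) (by omega)) (by omega) (by omega) (by omega)
  simp only [Nat.add_assoc, Nat.reduceAdd] at h0 h1 h2 h3 h4 h5 h6 ⊢
  rw [h6, h5, h4, h3, h2, h1, h0]
  ring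

theorem card_end (S : Finset ℕ) (Q : ℕ) :
    (blw S (7 * Q + 5)).card = (blw S (7 * Q + 3)).card +
      (bt S (7 * Q + 3) + bt S (7 * Q + 4)) := by
  have h0 := card_blw_succ S (7 * Q + 3)
  have h1 := card_blw_succ S (7 * Q + 4)
  simp only [Nat.add_assoc, Nat.reduceAdd] at h0 h1 ⊢
  omega

theorem e2_end (S : Finset ℕ) (Q : ℕ) :
    e2 (hub Q) (blw S (7 * Q + 5)) = e2 (hub Q) (blw S (7 * Q + 3)) +
      2 * (bt S (7 * Q + 3) * bt S (7 * Q + 2) +
        bt S (7 * Q + 4) * (bt S (7 * Q + 3) + bt S 0)) := by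
  have h0 := e2_blw_one (D := hubD Q) S (n := 7 * Q + 3) (p := 7 * Q + 2)
    (hubD_one (by omega) (by omega) (by omega) (by omega)) (by omega)
  have h1 := e2_blw_two (D := hubD Q) S (n := 7 * Q + 4) (p := 7 * Q + 3) (q := 0)
    (hubD_hub (by omega) (by omega)) (by omega) (by omega) (by omega)
  simp only [Nat.add_assoc, Nat.reduceAdd] at h0 h1 ⊢
  rw [h1, h0]
  ring

/-- number of chosen vertices of a level -/
def lv (b c1 c2 c e1 e2 d : Bool) : ℕ :=
  b.toNat + c1.toNat + c2.toNat + c.toNat + e1.toNat + e2.toNat + d.toNat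

/-- number of edges added with a level -/
def lx (h p b c1 c2 c e1 e2 d : Bool) : ℕ :=
  b.toNat * p.toNat + c1.toNat * b.toNat + c2.toNat * c1.toNat +
    c.toNat * (c2.toNat + h.toNat) + e1.toNat * c.toNat + e2.toNat * e1.toNat +
    d.toNat * (e2.toNat + b.toNat)

theorem lev_tt : ∀ b c1 c2 c e1 e2 d : Bool,
    7 * lx true true b c1 c2 c e1 e2 d ≤ 9 * lv b c1 c2 c e1 e2 d ∧
    (d = true → lv b c1 c2 c e1 e2 d = 7 ∨
      7 * lx true true b c1 c2 c e1 e2 d + 3 ≤ 9 * lv b c1 c2 c e1 e2 d) := by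
  decide

theorem lev_tf : ∀ b c1 c2 c e1 e2 d : Bool,
    7 * lx true false b c1 c2 c e1 e2 d ≤ 9 * lv b c1 c2 c e1 e2 d ∧
    (d = true → 7 * lx true false b c1 c2 c e1 e2 d + 7 ≤ 9 * lv b c1 c2 c e1 e2 d) ∧
    (lv b c1 c2 c e1 e2 d = 0 ∨
      7 * lx true false b c1 c2 c e1 e2 d + 2 ≤ 9 * lv b c1 c2 c e1 e2 d) := by
  decide

theorem lev_ff : ∀ b c1 c2 c e1 e2 d : Bool,
    (lv b c1 c2 c e1 e2 d = 0 ∧ lx false false b c1 c2 c e1 e2 d = 0 ∧ d = false) ∨
    (lv b c1 c2 c e1 e2 d = 1 ∧ lx false false b c1 c2 c e1 e2 d = 0) ∨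
    7 * lx false false b c1 c2 c e1 e2 d + 11 ≤ 9 * lv b c1 c2 c e1 e2 d := by
  decide

theorem lev_ft : ∀ b c1 c2 c e1 e2 d : Bool,
    (lv b c1 c2 c e1 e2 d = 0 ∧ lx false true b c1 c2 c e1 e2 d = 0 ∧ d = false) ∨
    7 * lx false true b c1 c2 c e1 e2 d + 2 ≤ 9 * lv b c1 c2 c e1 e2 d := by
  decide

/-- the invariant of a prefix; `h` is the bit of the hub, `d` the bit of the last vertex,
`v` the number of vertices, `E` twice the number of edges, `n` the length of the prefix -/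
def Inv (h d : Bool) (n v E : ℕ) : Prop :=
  (h = true → d = true → 7 * E + 26 ≤ 18 * v ∧ (v = n ∨ 7 * E + 32 ≤ 18 * v)) ∧
  (h = true → d = false → 7 * E + 18 ≤ 18 * v ∧ (v = 1 ∨ 7 * E + 22 ≤ 18 * v)) ∧
  (h = false → (v = 0 ∧ E = 0 ∧ d = false) ∨ (v = 1 ∧ E = 0) ∨ 7 * E + 22 ≤ 18 * v)

theorem inv_step {h p b c1 c2 c e1 e2 d : Bool} {n v E v' E' : ℕ} (hi : Inv h p n v E)
    (hv : v' = v + lv b c1 c2 c e1 e2 d) (hE : E' = E + 2 * lx h p b c1 c2 c e1 e2 d) :
    Inv h d (n + 7) v' E' := by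
  obtain ⟨i1, i2, i3⟩ := hi
  cases h
  · refine ⟨fun h => absurd h (by decide), fun h => absurd h (by decide), fun _ => ?_⟩
    have i4 := i3 rfl
    cases p
    · rcases lev_ff b c1 c2 c e1 e2 d with ⟨l1, l2, l3⟩ | ⟨l1, l2⟩ | l1
      · rcases i4 with ⟨k1, k2, k3⟩ | ⟨k1, k2⟩ | k1
        · left
          refine ⟨by omega, by omega, l3⟩
        · right; left
          exact ⟨by omega, by omega⟩
        · right; right
          omega
      · rcases i4 with ⟨k1, k2, k3⟩ | ⟨k1, k2⟩ | k1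
        · right; left
          exact ⟨by omega, by omega⟩
        · right; right
          omega
        · right; right
          omega
      · right; right
        rcases i4 with ⟨k1, k2, k3⟩ | ⟨k1, k2⟩ | k1 <;> omega
    · have i5 : (v = 1 ∧ E = 0) ∨ 7 * E + 22 ≤ 18 * v := by
        rcases i4 with ⟨k1, k2, k3⟩ | k
        · exact absurd k3 (by decide)
        · exact k
      rcases lev_ft b c1 c2 c e1 e2 d with ⟨l1, l2, l3⟩ | l1
      · right
        rcases i5 with ⟨k1, k2⟩ | k1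
        · left
          exact ⟨by omega, by omega⟩
        · right
          omega
      · right; right
        rcases i5 with ⟨k1, k2⟩ | k1 <;> omega
  · refine ⟨fun _ hd => ?_, fun _ hd => ?_, fun h => absurd h (by decide)⟩
    · cases p
      · have i4 := i2 rfl rfl
        have l := lev_tf b c1 c2 c e1 e2 d
        have l2 := l.2.1 hd
        exact ⟨by omega, by omega⟩
      · have i4 := i1 rfl rfl
        have l := lev_tt b c1 c2 c e1 e2 d
        have l2 := l.2 hd
        exact ⟨by omega, by omega⟩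
    · cases p
      · have i4 := i2 rfl rfl
        have l := lev_tf b c1 c2 c e1 e2 d
        exact ⟨by omega, by omega⟩
      · have i4 := i1 rfl rfl
        have l := lev_tt b c1 c2 c e1 e2 d
        exact ⟨by omega, by omega⟩

theorem inv_base : ∀ h z d : Bool, Inv h d 3 (h.toNat + z.toNat + d.toNat)
    (2 * (z.toNat * h.toNat + d.toNat * z.toNat)) := by
  unfold Inv
  decide

theorem inv_all {Q : ℕ} (S : Finset ℕ) : ∀ j : ℕ, j ≤ Q →
    Inv (mb S 0) (mb S (7 * j + 2)) (7 * j + 3) (blw S (7 * j + 3)).card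
      (e2 (hub Q) (blw S (7 * j + 3))) := by
  intro j
  induction j with
  | zero =>
    intro _
    have h1 := e2_base Q S
    have h2 := card_base S
    simp only [Nat.mul_zero, Nat.zero_add]
    rw [h1, h2]
    exact inv_base (mb S 0) (mb S 1) (mb S 2)
  | succ j ih =>
    intro hj
    have h1 := e2_level S (show j < Q by omega)
    have h2 := card_level S j
    have h3 := inv_step (ih (by omega)) (b := mb S (7 * j + 3)) (c1 := mb S (7 * j + 4))
      (c2 := mb S (7 * j + 5)) (c := mb S (7 * j + 6)) (e1 := mb S (7 * j + 7))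
      (e2 := mb S (7 * j + 8)) (d := mb S (7 * j + 9)) h2 h1
    rw [show 7 * (j + 1) + 2 = 7 * j + 9 by omega, show 7 * (j + 1) + 3 = 7 * j + 3 + 7 by omega]
    exact h3

theorem end_dec : ∀ h d y x : Bool,
    (h = true → d = true → y.toNat + x.toNat = 2 ∨
      7 * (y.toNat * d.toNat + x.toNat * (y.toNat + h.toNat)) ≤ 9 * (y.toNat + x.toNat)) ∧
    (7 * (y.toNat * d.toNat + x.toNat * (y.toNat + h.toNat)) ≤ 9 * (y.toNat + x.toNat) + 3) ∧
    (h = false ∨ d = false →
      7 * (y.toNat * d.toNat + x.toNat * (y.toNat + h.toNat)) ≤ 9 * (y.toNat + x.toNat)) ∧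
    (h = false ∨ d = false → y.toNat + x.toNat = 0 ∨
      7 * (y.toNat * d.toNat + x.toNat * (y.toNat + h.toNat)) + 2 ≤ 9 * (y.toNat + x.toNat)) ∧
    (h = false → d = false → y.toNat + x.toNat = 2 →
      7 * (y.toNat * d.toNat + x.toNat * (y.toNat + h.toNat)) + 11 ≤
        9 * (y.toNat + x.toNat)) := by
  decide

/-- sparseness of all sets with at least two vertices -/
theorem hub_sparse {Q : ℕ} {S : Finset ℕ} (hS : S ⊆ range (7 * Q + 5)) (h2 : 2 ≤ S.card) :
    7 * e2 (hub Q) S + 22 ≤ 18 * S.card ∨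
      (S.card = 7 * Q + 5 ∧ 7 * e2 (hub Q) S + 20 ≤ 18 * S.card) := by
  have h3 := e2_end S Q
  have h4 := card_end S Q
  rw [blw_self hS] at h3 h4
  have h5 := inv_all S Q le_rfl
  obtain ⟨d1, d2, d3, d4, d5⟩ :=
    end_dec (mb S 0) (mb S (7 * Q + 2)) (mb S (7 * Q + 3)) (mb S (7 * Q + 4))
  obtain ⟨i1, i2, i3⟩ := h5
  unfold bt at h3 h4
  have y1 : (mb S (7 * Q + 3)).toNat ≤ 1 := Bool.toNat_le _
  have x1 : (mb S (7 * Q + 4)).toNat ≤ 1 := Bool.toNat_le _
  generalize (mb S (7 * Q + 3)).toNat * (mb S (7 * Q + 2)).toNat +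
        (mb S (7 * Q + 4)).toNat * ((mb S (7 * Q + 3)).toNat + (mb S 0).toNat) = X at *
  rcases Bool.eq_false_or_eq_true (mb S 0) with g1 | g1
  · rcases Bool.eq_false_or_eq_true (mb S (7 * Q + 2)) with g2 | g2
    · have i4 := i1 g1 g2
      have d6 := d1 g1 g2
      omega
    · have i4 := i2 g1 g2
      have d6 := d3 (Or.inr g2)
      have d7 := d4 (Or.inr g2)
      omega
  · have i4 := i3 g1
    have d6 := d3 (Or.inl g1)
    have d7 := d4 (Or.inl g1)
    left
    rcases i4 with ⟨k1, k2, k3⟩ | ⟨k1, k2⟩ | k1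
    · have d8 := d5 g1 k3
      omega
    · omega
    · omega

/-- independent sets have at most `3 Q + 2` elements -/
theorem hub_alpha {Q : ℕ} {S : Finset ℕ} (hS : S ⊆ range (7 * Q + 5))
    (hI : (hub Q).IsIndepSet (S : Set ℕ)) : S.card ≤ 3 * Q + 2 := by
  have key : ∀ x y : ℕ, x < y → x ∈ hubD Q y → bt S x + bt S y ≤ 1 := by
    intro x y h1 h2
    by_cases hx : x ∈ S
    · by_cases hy : y ∈ S
      · exact absurd (dnG_of h1 h2)
          (hI (mem_coe.2 hx) (mem_coe.2 hy) (Nat.ne_of_lt h1))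
      · rw [bt_pos hx, bt_neg hy]
    · rw [bt_neg hx]
      by_cases hy : y ∈ S
      · rw [bt_pos hy]
      · rw [bt_neg hy]
        omega
  have hone : ∀ y : ℕ, y ≠ 0 → bt S (y - 1) + bt S y ≤ 1 := by
    intro y hy
    refine key (y - 1) y (by omega) ?_
    unfold hubD
    rw [if_neg hy]
    split_ifs <;> simp
  have hh : ∀ y : ℕ, y ≠ 0 → (y % 7 = 6 ∨ y = 7 * Q + 4) → bt S 0 + bt S y ≤ 1 := by
    intro y hy h1
    refine key 0 y (by omega) ?_
    rw [hubD_hub hy h1]
    simp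
  have htwo : ∀ y : ℕ, y % 7 = 2 → 9 ≤ y → bt S (y - 6) + bt S y ≤ 1 := by
    intro y h1 h2
    refine key (y - 6) y (by omega) ?_
    rw [hubD_two h1 h2]
    simp
  have hb : ∀ x, bt S x ≤ 1 := fun x => Bool.toNat_le _
  have hinv : ∀ j, j ≤ Q → (blw S (7 * j + 3)).card ≤ 3 * j + 1 + bt S 0 * bt S (7 * j + 2) := by
    intro j
    induction j with
    | zero =>
      intro _
      have h1 := card_base S
      have h2 := hone 1 (by omega)
      have h3 := hone 2 (by omega)
      have h4 := hb 0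
      simp only [Nat.mul_zero, Nat.zero_add, Nat.reduceSub] at h1 h2 h3 ⊢
      rcases (show bt S 0 = 0 ∨ bt S 0 = 1 by omega) with g | g
      · rw [g] at h1 h2 ⊢
        omega
      · rw [g] at h1 h2 ⊢
        omega
    | succ j ih =>
      intro hj
      have h0 := ih (by omega)
      have h1 := card_level S j
      have a0 := hone (7 * j + 3) (by omega)
      have a1 := hone (7 * j + 4) (by omega)
      have a2 := hone (7 * j + 5) (by omega)
      have a3 := hone (7 * j + 6) (by omega)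
      have a4 := hone (7 * j + 7) (by omega)
      have a5 := hone (7 * j + 8) (by omega)
      have a6 := hone (7 * j + 9) (by omega)
      have a7 := hh (7 * j + 6) (by omega) (by omega)
      have a8 := htwo (7 * j + 9) (by omega) (by omega)
      have h4 := hb 0
      have h5 := hb (7 * j + 2)
      rw [show 7 * (j + 1) + 3 = 7 * j + 10 by omega, show 7 * (j + 1) + 2 = 7 * j + 9 by omega]
      simp only [show 7 * j + 3 - 1 = 7 * j + 2 by omega, show 7 * j + 4 - 1 = 7 * j + 3 by omega,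
        show 7 * j + 5 - 1 = 7 * j + 4 by omega, show 7 * j + 6 - 1 = 7 * j + 5 by omega,
        show 7 * j + 7 - 1 = 7 * j + 6 by omega, show 7 * j + 8 - 1 = 7 * j + 7 by omega,
        show 7 * j + 9 - 1 = 7 * j + 8 by omega, show 7 * j + 9 - 6 = 7 * j + 3 by omega]
        at a0 a1 a2 a3 a4 a5 a6 a8
      rcases (show bt S 0 = 0 ∨ bt S 0 = 1 by omega) with g | g
      · rw [g] at h0 a7 ⊢
        omega
      · rw [g] at h0 a7 ⊢
        omega
  have h0 := hinv Q le_rfl
  have h1 := card_end S Q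
  rw [blw_self hS] at h1
  have a0 := hone (7 * Q + 3) (by omega)
  have a1 := hone (7 * Q + 4) (by omega)
  have a2 := hh (7 * Q + 4) (by omega) (Or.inr rfl)
  have h4 := hb 0
  simp only [show 7 * Q + 3 - 1 = 7 * Q + 2 by omega, show 7 * Q + 4 - 1 = 7 * Q + 3 by omega]
    at a0 a1
  rcases (show bt S 0 = 0 ∨ bt S 0 = 1 by omega) with g | g
  · rw [g] at h0 a2
    omega
  · rw [g] at h0 a2
    omega

end Pool.Agent.TwoDens.K3A
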