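import Pool.Agent.TwoDens.Bridge

/-!
Graphs on the natural numbers given by the sets of smaller neighbours, and the number of edges
inside the initial parts of a finite set.
-/

open Finset

namespace Pool.Agent.TwoDens.K3A

/-- insertion of a vertex -/
theorem e2_ins {V : Type*} [DecidableEq V] (G : SimpleGraph V) [DecidableRel G.Adj]
    {S : Finset V} {v : V} (hv : v ∉ S) :
    e2 G (insert v S) = e2 G S + 2 * (S.filter (G.Adj v)).card := by
  unfold e2
  rw [Finset.sum_insert hv]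
  have h1 : ((insert v S).filter (G.Adj v)).card = (S.filter (G.Adj v)).card := by
    rw [Finset.filter_insert, if_neg (G.loopless.irrefl v)]
  have h2 : ∀ x ∈ S, ((insert v S).filter (G.Adj x)).card =
      (S.filter (G.Adj x)).card + if G.Adj v x then 1 else 0 := by
    intro x _
    rw [Finset.filter_insert]
    by_cases h : G.Adj x v
    · rw [if_pos h, if_pos h.symm, Finset.card_insert_of_notMem]
      intro hm
      exact hv (mem_filter.1 hm).1
    · rw [if_neg h, if_neg (fun h' => h h'.symm), Nat.add_zero]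
  rw [h1, Finset.sum_congr rfl h2, Finset.sum_add_distrib, ← Finset.card_filter]
  ring

/-- membership as a truth value -/
def mb (S : Finset ℕ) (x : ℕ) : Bool := decide (x ∈ S)

/-- membership as a number -/
def bt (S : Finset ℕ) (x : ℕ) : ℕ := (mb S x).toNat

theorem bt_pos {S : Finset ℕ} {x : ℕ} (h : x ∈ S) : bt S x = 1 := by
  unfold bt mb
  rw [decide_eq_true h]
  rfl

theorem bt_neg {S : Finset ℕ} {x : ℕ} (h : x ∉ S) : bt S x = 0 := by
  unfold bt mb
  rw [decide_eq_false h]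
  rfl

theorem bt_eq_ite (S : Finset ℕ) (x : ℕ) : bt S x = if x ∈ S then 1 else 0 := by
  split_ifs with h
  · exact bt_pos h
  · exact bt_neg h

/-- the part of `S` below `n` -/
def blw (S : Finset ℕ) (n : ℕ) : Finset ℕ := S.filter (fun x => x < n)

theorem mem_blw {S : Finset ℕ} {n x : ℕ} : x ∈ blw S n ↔ x ∈ S ∧ x < n := by
  unfold blw
  rw [mem_filter]

theorem blw_succ_mem {S : Finset ℕ} {n : ℕ} (h : n ∈ S) :
    blw S (n + 1) = insert n (blw S n) := by
  ext x
  rw [mem_insert, mem_blw, mem_blw]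
  constructor
  · rintro ⟨h1, h2⟩
    by_cases hx : x = n
    · exact Or.inl hx
    · exact Or.inr ⟨h1, by omega⟩
  · rintro (h1 | ⟨h1, h2⟩)
    · exact ⟨h1 ▸ h, by omega⟩
    · exact ⟨h1, by omega⟩

theorem blw_succ_not {S : Finset ℕ} {n : ℕ} (h : n ∉ S) : blw S (n + 1) = blw S n := by
  ext x
  rw [mem_blw, mem_blw]
  constructor
  · rintro ⟨h1, h2⟩
    refine ⟨h1, ?_⟩
    by_contra hc
    exact h ((show x = n by omega) ▸ h1)
  · rintro ⟨h1, h2⟩
    exact ⟨h1, by omega⟩

theorem blw_zero (S : Finset ℕ) : blw S 0 = ∅ := by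
  unfold blw
  simp

theorem blw_self {S : Finset ℕ} {n : ℕ} (h : S ⊆ range n) : blw S n = S := by
  ext x
  rw [mem_blw]
  exact ⟨fun h1 => h1.1, fun h1 => ⟨h1, mem_range.1 (h h1)⟩⟩

theorem card_blw_succ (S : Finset ℕ) (n : ℕ) :
    (blw S (n + 1)).card = (blw S n).card + bt S n := by
  by_cases h : n ∈ S
  · rw [blw_succ_mem h, Finset.card_insert_of_notMem (fun hm => by
      rw [mem_blw] at hm
      omega), bt_pos h]
  · rw [blw_succ_not h, bt_neg h, Nat.add_zero]

/-- the graph with the sets `D n` of smaller neighbours -/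
def dnG (D : ℕ → Finset ℕ) : SimpleGraph ℕ where
  Adj x y := (x < y ∧ x ∈ D y) ∨ (y < x ∧ y ∈ D x)
  symm := ⟨fun _ _ h => Or.symm h⟩
  loopless := ⟨fun x h => by
    rcases h with h | h <;> exact absurd h.1 (lt_irrefl x)⟩

instance (D : ℕ → Finset ℕ) : DecidableRel (dnG D).Adj := fun x y =>
  inferInstanceAs (Decidable ((x < y ∧ x ∈ D y) ∨ (y < x ∧ y ∈ D x)))

theorem dnG_of {D : ℕ → Finset ℕ} {x y : ℕ} (h1 : x < y) (h2 : x ∈ D y) : (dnG D).Adj x y :=
  Or.inl ⟨h1, h2⟩

theorem down_card {D : ℕ → Finset ℕ} (S : Finset ℕ) {n : ℕ} (hD : ∀ y ∈ D n, y < n) :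
    ((blw S n).filter ((dnG D).Adj n)).card = ∑ y ∈ D n, bt S y := by
  have h1 : (blw S n).filter ((dnG D).Adj n) = (D n).filter (fun y => y ∈ S) := by
    ext y
    rw [mem_filter, mem_blw, mem_filter]
    constructor
    · rintro ⟨⟨h1, h2⟩, h3⟩
      rcases h3 with h3 | h3
      · exact absurd h3.1 (by omega)
      · exact ⟨h3.2, h1⟩
    · rintro ⟨h1, h2⟩
      exact ⟨⟨h2, hD y h1⟩, Or.inr ⟨hD y h1, h1⟩⟩
  rw [h1, Finset.card_filter]
  exact Finset.sum_congr rfl (fun y _ => (bt_eq_ite S y).symm)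

theorem e2_blw_succ {D : ℕ → Finset ℕ} (S : Finset ℕ) {n : ℕ} (hD : ∀ y ∈ D n, y < n) :
    e2 (dnG D) (blw S (n + 1)) = e2 (dnG D) (blw S n) +
      2 * (bt S n * ∑ y ∈ D n, bt S y) := by
  by_cases h : n ∈ S
  · rw [blw_succ_mem h, e2_ins (dnG D) (fun hm => by
      rw [mem_blw] at hm
      omega), down_card S hD, bt_pos h, one_mul]
  · rw [blw_succ_not h, bt_neg h, zero_mul, mul_zero, Nat.add_zero]

theorem e2_blw_one {D : ℕ → Finset ℕ} (S : Finset ℕ) {n p : ℕ} (hn : D n = {p}) (hp : p < n) :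
    e2 (dnG D) (blw S (n + 1)) = e2 (dnG D) (blw S n) + 2 * (bt S n * bt S p) := by
  rw [e2_blw_succ S (fun y hy => by
    rw [hn, mem_singleton] at hy
    omega), hn, sum_singleton]

theorem e2_blw_two {D : ℕ → Finset ℕ} (S : Finset ℕ) {n p q : ℕ} (hn : D n = {p, q})
    (hp : p < n) (hq : q < n) (hpq : p ≠ q) :
    e2 (dnG D) (blw S (n + 1)) = e2 (dnG D) (blw S n) + 2 * (bt S n * (bt S p + bt S q)) := by
  rw [e2_blw_succ S (fun y hy => by
    rw [hn, mem_insert, mem_singleton] at hy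
    omega), hn, sum_pair hpq]

end Pool.Agent.TwoDens.K3A
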