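import Pool.Agent.TwoDens.Bridge

/-!
Disjoint odd cycles: an upper bound for the minimum 2-density.
-/

open Finset

namespace Pool.Agent.TwoDens.K3A

open Pool.Agent.TwoDens

/-- disjoint cycles, the cycle number `t` has `2 f t + 1` vertices -/
abbrev CV (j : ℕ) (f : Fin j → ℕ) : Type := Σ t : Fin j, ZMod (2 * f t + 1)

variable {j : ℕ} {f : Fin j → ℕ}

/-- the next vertex -/
def nx (x : CV j f) : CV j f := ⟨x.1, x.2 + 1⟩

/-- the previous vertex -/
def pv (x : CV j f) : CV j f := ⟨x.1, x.2 - 1⟩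

theorem nx_pv (x : CV j f) : nx (pv x) = x := by
  obtain ⟨t, a⟩ := x
  change (⟨t, a - 1 + 1⟩ : CV j f) = ⟨t, a⟩
  rw [sub_add_cancel]

theorem pv_nx (x : CV j f) : pv (nx x) = x := by
  obtain ⟨t, a⟩ := x
  change (⟨t, a + 1 - 1⟩ : CV j f) = ⟨t, a⟩
  rw [add_sub_cancel_right]

theorem nx_inj : Function.Injective (nx (f := f)) := fun x y h => by
  rw [← pv_nx x, h, pv_nx]

theorem pv_inj : Function.Injective (pv (f := f)) := fun x y h => by
  rw [← nx_pv x, h, nx_pv]

/-- the graph of the cycles -/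
def cyG (j : ℕ) (f : Fin j → ℕ) : SimpleGraph (CV j f) where
  Adj x y := x ≠ y ∧ (y = nx x ∨ x = nx y)
  symm := ⟨fun _ _ h => ⟨h.1.symm, Or.symm h.2⟩⟩
  loopless := ⟨fun _ h => h.1 rfl⟩

instance : DecidableRel (cyG j f).Adj := fun x y =>
  inferInstanceAs (Decidable (x ≠ y ∧ (y = nx x ∨ x = nx y)))

theorem nx_ne (hf : ∀ t, 1 ≤ f t) (x : CV j f) : nx x ≠ x := by
  obtain ⟨t, a⟩ := x
  intro h
  have h1 : a + 1 = a := by
    have h2 : (⟨t, a + 1⟩ : Σ t : Fin j, ZMod (2 * f t + 1)) = ⟨t, a⟩ := h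
    simpa using h2
  have h3 : (1 : ZMod (2 * f t + 1)) = 0 := by
    have h4 := congrArg (fun z => z - a) h1
    simpa using h4
  have h5 := hf t
  have h6 : Fact (1 < 2 * f t + 1) := ⟨by omega⟩
  exact one_ne_zero h3

theorem adj_nx (hf : ∀ t, 1 ≤ f t) (x : CV j f) : (cyG j f).Adj x (nx x) :=
  ⟨(nx_ne hf x).symm, Or.inl rfl⟩

/-- a set of vertices closed under the successor contains a full cycle -/
theorem closed_card {l : ℕ} (hl : ∀ t, l ≤ f t) {Y : Finset (CV j f)} (hne : Y.Nonempty)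
    (h : ∀ y ∈ Y, nx y ∈ Y) : 2 * l + 1 ≤ Y.card := by
  obtain ⟨⟨t, a⟩, ha⟩ := hne
  have h1 : ∀ n : ℕ, (⟨t, a + n⟩ : CV j f) ∈ Y := by
    intro n
    induction n with
    | zero => simpa using ha
    | succ n ih =>
      have h2 := h _ ih
      have h3 : nx (⟨t, a + n⟩ : CV j f) = ⟨t, a + ((n + 1 : ℕ) : ZMod (2 * f t + 1))⟩ := by
        unfold nx
        simp [add_assoc]
      rw [h3] at h2
      exact h2
  have h2 : ∀ b : ZMod (2 * f t + 1), (⟨t, b⟩ : CV j f) ∈ Y := by
    intro b
    have h3 := h1 ((b - a).val)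
    rw [ZMod.natCast_zmod_val] at h3
    simpa using h3
  have h3 : (Finset.univ : Finset (ZMod (2 * f t + 1))).card ≤ Y.card := by
    refine Finset.card_le_card_of_injOn (fun b => (⟨t, b⟩ : CV j f)) (fun b _ => h2 b) ?_
    intro b _ c _ hbc
    have h4 : (⟨t, b⟩ : Σ t : Fin j, ZMod (2 * f t + 1)) = ⟨t, c⟩ := hbc
    simpa using h4
  rw [Finset.card_univ, ZMod.card] at h3
  have h4 := hl t
  omega

theorem card_CV : Fintype.card (CV j f) = 2 * (∑ t, f t) + j := by
  have h : Fintype.card (CV j f) = ∑ t : Fin j, Fintype.card (ZMod (2 * f t + 1)) :=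
    Fintype.card_sigma
  rw [h]
  simp only [ZMod.card]
  rw [Finset.sum_add_distrib, ← Finset.mul_sum]
  simp

/-- the independence number -/
theorem indep_le {I : Finset (CV j f)} (hf : ∀ t, 1 ≤ f t)
    (hI : (cyG j f).IsIndepSet (I : Set (CV j f))) : I.card ≤ ∑ t, f t := by
  have h1 : I.card = ∑ t : Fin j, (I.filter (fun x => x.1 = t)).card :=
    Finset.card_eq_sum_card_fiberwise (fun x _ => Finset.mem_univ x.1)
  rw [h1]
  refine Finset.sum_le_sum ?_
  intro t _
  set A := I.filter (fun x => x.1 = t) with hA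
  have h2 : Disjoint A (A.image nx) := by
    rw [Finset.disjoint_left]
    intro x hx hx'
    rw [Finset.mem_image] at hx'
    obtain ⟨y, hy, hyx⟩ := hx'
    rw [hA, Finset.mem_filter] at hx hy
    have h3 : (cyG j f).Adj y x := hyx ▸ adj_nx hf y
    exact hI (Finset.mem_coe.2 hy.1) (Finset.mem_coe.2 hx.1) h3.1 h3
  have h3 : A ∪ A.image nx ⊆ (Finset.univ : Finset (CV j f)).filter (fun x => x.1 = t) := by
    intro x hx
    rw [Finset.mem_union, Finset.mem_image] at hx
    rw [Finset.mem_filter]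
    refine ⟨Finset.mem_univ _, ?_⟩
    rcases hx with hx | ⟨y, hy, hyx⟩
    · rw [hA, Finset.mem_filter] at hx
      exact hx.2
    · rw [hA, Finset.mem_filter] at hy
      rw [← hyx]
      exact hy.2
  have h4 : ((Finset.univ : Finset (CV j f)).filter (fun x => x.1 = t)).card ≤ 2 * f t + 1 := by
    have h5 : (Finset.univ : Finset (CV j f)).filter (fun x => x.1 = t) ⊆
        (Finset.univ : Finset (ZMod (2 * f t + 1))).image (fun b => (⟨t, b⟩ : CV j f)) := by
      intro x hx
      rw [Finset.mem_filter] at hx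
      obtain ⟨t', b⟩ := x
      have h6 : t' = t := hx.2
      subst h6
      exact Finset.mem_image.2 ⟨b, Finset.mem_univ _, rfl⟩
    refine (Finset.card_le_card h5).trans (Finset.card_image_le.trans ?_)
    rw [Finset.card_univ, ZMod.card]
  have h5 := Finset.card_le_card h3
  rw [Finset.card_union_of_disjoint h2, Finset.card_image_of_injective _ nx_inj] at h5
  omega

theorem nb_card (Y : Finset (CV j f)) (x : CV j f) :
    (Y.filter ((cyG j f).Adj x)).card ≤ 2 := by
  have h1 : Y.filter ((cyG j f).Adj x) ⊆ {nx x, pv x} := by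
    intro y hy
    rw [Finset.mem_filter] at hy
    rw [Finset.mem_insert, Finset.mem_singleton]
    rcases hy.2.2 with h | h
    · exact Or.inl h
    · exact Or.inr (by rw [h, pv_nx])
  exact (Finset.card_le_card h1).trans Finset.card_le_two

theorem sparse {l : ℕ} (hl : ∀ t, l ≤ f t) (Y : Finset (CV j f))
    (hY : 3 ≤ Y.card) : e2 (cyG j f) Y + 2 ≤ 2 * Y.card ∨
      (e2 (cyG j f) Y ≤ 2 * Y.card ∧ 2 * l + 1 ≤ Y.card) := by
  have h0 : e2 (cyG j f) Y ≤ 2 * Y.card := by
    unfold e2
    calc ∑ x ∈ Y, (Y.filter ((cyG j f).Adj x)).card ≤ ∑ _x ∈ Y, 2 :=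
          Finset.sum_le_sum (fun x _ => nb_card Y x)
      _ = 2 * Y.card := by rw [Finset.sum_const, smul_eq_mul, mul_comm]
  by_cases hc : ∀ y ∈ Y, nx y ∈ Y
  · exact Or.inr ⟨h0, closed_card hl (Finset.card_pos.1 (by omega)) hc⟩
  · left
    push Not at hc
    obtain ⟨y, hy, hny⟩ := hc
    -- `y` and some other vertex have degree at most one
    have hc2 : ∃ z ∈ Y, pv z ∉ Y := by
      by_contra hcon
      push Not at hcon
      have h1 : Y.image pv = Y := by
        refine Finset.eq_of_subset_of_card_le ?_ ?_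
        · intro x hx
          rw [Finset.mem_image] at hx
          obtain ⟨z, hz, rfl⟩ := hx
          exact hcon z hz
        · rw [Finset.card_image_of_injective _ pv_inj]
      rw [← h1, Finset.mem_image] at hy
      obtain ⟨z, hz, hzy⟩ := hy
      apply hny
      rw [← hzy, nx_pv]
      exact hz
    obtain ⟨z, hz, hnz⟩ := hc2
    have dy : (Y.filter ((cyG j f).Adj y)).card ≤ if y = z then 0 else 1 := by
      have h1 : Y.filter ((cyG j f).Adj y) ⊆ if y = z then ∅ else {pv y} := by
        intro x hx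
        rw [Finset.mem_filter] at hx
        have h2 : x = pv y := by
          rcases hx.2.2 with h | h
          · exact absurd (h ▸ hx.1) hny
          · rw [h, pv_nx]
        by_cases hyz : y = z
        · exact absurd (h2 ▸ hx.1) (by rw [hyz]; exact hnz)
        · rw [if_neg hyz, Finset.mem_singleton]
          exact h2
      refine (Finset.card_le_card h1).trans ?_
      by_cases hyz : y = z
      · rw [if_pos hyz, if_pos hyz, Finset.card_empty]
      · rw [if_neg hyz, if_neg hyz, Finset.card_singleton]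
    have dz : (Y.filter ((cyG j f).Adj z)).card ≤ 1 := by
      have h1 : Y.filter ((cyG j f).Adj z) ⊆ {nx z} := by
        intro x hx
        rw [Finset.mem_filter] at hx
        rw [Finset.mem_singleton]
        rcases hx.2.2 with h | h
        · exact h
        · exfalso
          apply hnz
          rw [h, pv_nx]
          exact hx.1
      exact (Finset.card_le_card h1).trans (by rw [Finset.card_singleton])
    unfold e2
    by_cases hyz : y = z
    · rw [if_pos hyz] at dy
      rw [← Finset.add_sum_erase Y _ hy]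
      have h1 : ∑ x ∈ Y.erase y, (Y.filter ((cyG j f).Adj x)).card ≤ ∑ _x ∈ Y.erase y, 2 :=
        Finset.sum_le_sum (fun x _ => nb_card Y x)
      rw [Finset.sum_const, smul_eq_mul, Finset.card_erase_of_mem hy] at h1
      omega
    · rw [if_neg hyz] at dy
      have hzy : z ∈ Y.erase y := Finset.mem_erase.2 ⟨Ne.symm hyz, hz⟩
      rw [← Finset.add_sum_erase Y _ hy, ← Finset.add_sum_erase (Y.erase y) _ hzy]
      have h1 : ∑ x ∈ (Y.erase y).erase z, (Y.filter ((cyG j f).Adj x)).card ≤
          ∑ _x ∈ (Y.erase y).erase z, 2 :=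
        Finset.sum_le_sum (fun x _ => nb_card Y x)
      rw [Finset.sum_const, smul_eq_mul, Finset.card_erase_of_mem hzy,
        Finset.card_erase_of_mem hy] at h1
      omega

/-- `j` disjoint odd cycles with at least `2 l + 1` vertices each -/
theorem upper (s j l : ℕ) (hj : 1 ≤ j) (hl : 1 ≤ l) (h : j * l ≤ s) :
    minTwoDensity (2 * s + j) (s + 1) ≤ (2 * (l : ℝ)) / (2 * l - 1) := by
  have hlR : (1 : ℝ) ≤ l := by exact_mod_cast hl
  have hpos : (0 : ℝ) < 2 * l - 1 := by linarith
  obtain ⟨f, hf, hsum⟩ : ∃ f : Fin j → ℕ, (∀ t, l ≤ f t) ∧ ∑ t, f t = s := by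
    obtain ⟨i, rfl⟩ : ∃ i, j = i + 1 := ⟨j - 1, by omega⟩
    refine ⟨Fin.cons (s - i * l) (fun _ => l), ?_, ?_⟩
    · intro t
      refine Fin.cases ?_ (fun _ => ?_) t
      · rw [Fin.cons_zero]
        have : (i + 1) * l = i * l + l := by ring
        omega
      · rw [Fin.cons_succ]
    · rw [Fin.sum_univ_succ, Fin.cons_zero]
      simp only [Fin.cons_succ]
      rw [Finset.sum_const, Finset.card_univ, Fintype.card_fin, smul_eq_mul]
      have : (i + 1) * l = i * l + l := by ring
      omega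
  have hf1 : ∀ t, 1 ≤ f t := fun t => hl.trans (hf t)
  refine minTwoDensity_le (div_nonneg (by linarith) hpos.le) (cyG j f) ?_ ?_ ?_
  · rw [card_CV, hsum]
  · intro I hI
    have := indep_le hf1 hI
    omega
  · intro Y hY
    have hYR : (3 : ℝ) ≤ Y.card := by exact_mod_cast hY
    have hc : (1 : ℝ) ≤ 2 * l / (2 * l - 1) := by
      rw [le_div_iff₀ hpos]
      linarith
    rcases sparse hf Y hY with h1 | ⟨h1, h2⟩
    · have h3 : (e2 (cyG j f) Y : ℝ) + 2 ≤ 2 * Y.card := by exact_mod_cast h1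
      nlinarith
    · have h3 : (e2 (cyG j f) Y : ℝ) ≤ 2 * Y.card := by exact_mod_cast h1
      have h4 : (2 * (l : ℝ) + 1) ≤ Y.card := by exact_mod_cast h2
      have h5 : 2 * (l : ℝ) / (2 * l - 1) * (2 * l - 1) = 2 * l := div_mul_cancel₀ _ hpos.ne'
      nlinarith

end Pool.Agent.TwoDens.K3A
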