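import Pool.Agent.K3A.Hub

/-!
Disjoint unions of graphs on initial segments, and the upper bound for `M (2 s + i, s + 1)` by
disjoint copies of the graphs `G_q`.
-/

open Finset

namespace Pool.Agent.TwoDens.K3A

/-- vertices of a disjoint union -/
abbrev UV (H : ℕ) (n : Fin H → ℕ) : Type := Σ t : Fin H, Fin (n t)

variable {H : ℕ} {n : Fin H → ℕ}

/-- disjoint union -/
def unG (n : Fin H → ℕ) (G : Fin H → SimpleGraph ℕ) : SimpleGraph (UV H n) where
  Adj x y := x.1 = y.1 ∧ (G x.1).Adj x.2.val y.2.val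
  symm := ⟨fun x y h => ⟨h.1.symm, by
    obtain ⟨a, u⟩ := x
    obtain ⟨b, v⟩ := y
    obtain ⟨h1, h2⟩ := h
    have h3 : a = b := h1
    subst h3
    exact h2.symm⟩⟩
  loopless := ⟨fun x h => (G x.1).loopless.irrefl _ h.2⟩

instance (G : Fin H → SimpleGraph ℕ) [∀ t, DecidableRel (G t).Adj] :
    DecidableRel (unG n G).Adj := fun x y =>
  inferInstanceAs (Decidable (x.1 = y.1 ∧ (G x.1).Adj x.2.val y.2.val))

theorem unG_adj {G : Fin H → SimpleGraph ℕ} {t : Fin H} {x y : UV H n} (hx : x.1 = t) :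
    (unG n G).Adj x y ↔ y.1 = t ∧ (G t).Adj x.2.val y.2.val := by
  subst hx
  exact ⟨fun h => ⟨h.1.symm, h.2⟩, fun h => ⟨h.1.symm, h.2⟩⟩

/-- the part of a set in one component -/
def fib (Y : Finset (UV H n)) (t : Fin H) : Finset ℕ :=
  (Y.filter (fun x => x.1 = t)).image (fun x => x.2.val)

theorem val_inj {t : Fin H} {x y : UV H n} (hx : x.1 = t) (hy : y.1 = t)
    (h : x.2.val = y.2.val) : x = y := by
  obtain ⟨a, u⟩ := x
  obtain ⟨b, v⟩ := y
  have h1 : a = b := hx.trans hy.symm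
  subst h1
  have h2 : u = v := Fin.ext h
  rw [h2]

theorem fib_sub (Y : Finset (UV H n)) (t : Fin H) : fib Y t ⊆ range (n t) := by
  intro a ha
  unfold fib at ha
  rw [mem_image] at ha
  obtain ⟨x, hx, rfl⟩ := ha
  rw [mem_filter] at hx
  rw [mem_range, ← hx.2]
  exact x.2.isLt

theorem fib_card (Y : Finset (UV H n)) (t : Fin H) :
    (fib Y t).card = (Y.filter (fun x => x.1 = t)).card := by
  unfold fib
  refine Finset.card_image_of_injOn ?_
  intro x hx y hy h
  rw [Finset.mem_coe, mem_filter] at hx hy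
  exact val_inj hx.2 hy.2 h

theorem card_fib (Y : Finset (UV H n)) : Y.card = ∑ t : Fin H, (fib Y t).card := by
  have h1 : Y.card = ∑ t : Fin H, (Y.filter (fun x => x.1 = t)).card :=
    Finset.card_eq_sum_card_fiberwise (fun x _ => Finset.mem_univ x.1)
  rw [h1]
  exact Finset.sum_congr rfl (fun t _ => (fib_card Y t).symm)

theorem nb_fib (G : Fin H → SimpleGraph ℕ) [∀ t, DecidableRel (G t).Adj]
    (Y : Finset (UV H n)) {t : Fin H} {x : UV H n} (hx : x.1 = t) :
    (Y.filter ((unG n G).Adj x)).card = ((fib Y t).filter ((G t).Adj x.2.val)).card := by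
  have h1 : (fib Y t).filter ((G t).Adj x.2.val) =
      (Y.filter ((unG n G).Adj x)).image (fun y => y.2.val) := by
    ext a
    unfold fib
    rw [mem_filter, mem_image, mem_image]
    constructor
    · rintro ⟨⟨y, hy, rfl⟩, h2⟩
      rw [mem_filter] at hy
      refine ⟨y, ?_, rfl⟩
      rw [mem_filter]
      exact ⟨hy.1, (unG_adj hx).2 ⟨hy.2, h2⟩⟩
    · rintro ⟨y, hy, rfl⟩
      rw [mem_filter] at hy
      obtain ⟨h2, h3⟩ := hy
      rw [unG_adj hx] at h3
      exact ⟨⟨y, mem_filter.2 ⟨h2, h3.1⟩, rfl⟩, h3.2⟩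
  rw [h1]
  refine (Finset.card_image_of_injOn ?_).symm
  intro y hy z hz h
  rw [Finset.mem_coe, mem_filter, unG_adj hx] at hy hz
  exact val_inj (t := t) hy.2.1 hz.2.1 h

theorem e2_fib (G : Fin H → SimpleGraph ℕ) [∀ t, DecidableRel (G t).Adj]
    (Y : Finset (UV H n)) : e2 (unG n G) Y = ∑ t : Fin H, e2 (G t) (fib Y t) := by
  unfold e2
  rw [← Finset.sum_fiberwise_of_maps_to (t := Finset.univ) (g := fun x : UV H n => x.1)
    (fun x _ => Finset.mem_univ x.1)]
  refine Finset.sum_congr rfl ?_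
  intro t _
  have h1 : ∀ x ∈ Y.filter (fun x => x.1 = t), (Y.filter ((unG n G).Adj x)).card =
      ((fib Y t).filter ((G t).Adj x.2.val)).card := by
    intro x hx
    rw [mem_filter] at hx
    exact nb_fib G Y hx.2
  rw [Finset.sum_congr rfl h1]
  conv_rhs => rw [fib]
  rw [Finset.sum_image]
  · rfl
  · intro x hx y hy h
    rw [Finset.mem_coe, mem_filter] at hx hy
    exact val_inj hx.2 hy.2 h

theorem e2_single (G : SimpleGraph ℕ) [DecidableRel G.Adj] {S : Finset ℕ} (h : S.card = 1) :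
    e2 G S = 0 := by
  obtain ⟨a, rfl⟩ := Finset.card_eq_one.1 h
  unfold e2
  rw [sum_singleton, Finset.card_eq_zero, Finset.filter_eq_empty_iff]
  intro b hb
  rw [mem_singleton] at hb
  rw [hb]
  exact G.loopless.irrefl a

theorem e2_empty (G : SimpleGraph ℕ) [DecidableRel G.Adj] : e2 G ∅ = 0 := by
  unfold e2
  exact sum_empty

/-- an upper bound for `M (m, r)` by a disjoint union -/
theorem union_le (a : Fin H → ℕ) (G : Fin H → SimpleGraph ℕ)
    [∀ t, DecidableRel (G t).Adj] {m r : ℕ} {c : ℝ} (hc : 1 ≤ c) (hm : m ≤ ∑ t, n t)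
    (ha : ∑ t, a t < r)
    (hα : ∀ t, ∀ S : Finset ℕ, S ⊆ range (n t) → (G t).IsIndepSet (S : Set ℕ) → S.card ≤ a t)
    (hd : ∀ t, ∀ S : Finset ℕ, S ⊆ range (n t) → 2 ≤ S.card →
      (e2 (G t) S : ℝ) ≤ 2 + 2 * c * ((S.card : ℝ) - 2)) : minTwoDensity m r ≤ c := by
  refine minTwoDensity_le (by linarith) (unG n G) ?_ ?_ ?_
  · rw [Fintype.card_sigma]
    simpa using hm
  · intro I hI
    rw [card_fib]
    refine lt_of_le_of_lt (Finset.sum_le_sum ?_) ha
    intro t _
    refine hα t _ (fib_sub I t) ?_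
    intro x hx y hy hxy hadj
    unfold fib at hx hy
    rw [Finset.mem_coe, mem_image] at hx hy
    obtain ⟨x', hx', rfl⟩ := hx
    obtain ⟨y', hy', rfl⟩ := hy
    rw [mem_filter] at hx' hy'
    refine hI (Finset.mem_coe.2 hx'.1) (Finset.mem_coe.2 hy'.1) ?_
      ((unG_adj hx'.2).2 ⟨hy'.2, hadj⟩)
    intro h
    exact hxy (by rw [h])
  · intro Y hY
    have hw : ∀ t, (0 : ℝ) ≤ 2 * c * (fib Y t).card - e2 (G t) (fib Y t) ∧
        ((fib Y t).Nonempty → 2 * c ≤ 2 * c * (fib Y t).card - e2 (G t) (fib Y t)) := by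
      intro t
      rcases (show (fib Y t).card = 0 ∨ (fib Y t).card = 1 ∨ 2 ≤ (fib Y t).card by omega)
        with h | h | h
      · have h1 := Finset.card_eq_zero.1 h
        rw [h1, e2_empty]
        simp
      · rw [e2_single (G t) h, h]
        constructor
        · push_cast
          linarith
        · intro _
          push_cast
          linarith
      · have h1 := hd t _ (fib_sub Y t) h
        constructor
        · linarith
        · intro _
          linarith
    have hcard := card_fib Y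
    have he2 := e2_fib G Y
    have hne : Y.Nonempty := Finset.card_pos.1 (by omega)
    obtain ⟨x0, hx0⟩ := hne
    have h0 : (fib Y x0.1).Nonempty :=
      ⟨x0.2.val, mem_image.2 ⟨x0, mem_filter.2 ⟨hx0, rfl⟩, rfl⟩⟩
    by_cases hall : ∀ t, t ≠ x0.1 → fib Y t = ∅
    · have h1 : Y.card = (fib Y x0.1).card := by
        rw [hcard]
        refine Finset.sum_eq_single x0.1 ?_ ?_
        · intro t _ ht
          rw [hall t ht, card_empty]
        · intro h
          exact absurd (Finset.mem_univ _) h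
      have h2 : e2 (unG n G) Y = e2 (G x0.1) (fib Y x0.1) := by
        rw [he2]
        refine Finset.sum_eq_single x0.1 ?_ ?_
        · intro t _ ht
          rw [hall t ht, e2_empty]
        · intro h
          exact absurd (Finset.mem_univ _) h
      rw [h1] at hY ⊢
      rw [h2]
      exact hd _ _ (fib_sub Y _) (by omega)
    · push Not at hall
      obtain ⟨t1, ht1, h1⟩ := hall
      have h2 : ∑ t ∈ ({x0.1, t1} : Finset (Fin H)),
          (2 * c * ((fib Y t).card : ℝ) - (e2 (G t) (fib Y t) : ℝ)) ≤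
          ∑ t, (2 * c * ((fib Y t).card : ℝ) - (e2 (G t) (fib Y t) : ℝ)) :=
        Finset.sum_le_sum_of_subset_of_nonneg (Finset.subset_univ _) (fun t _ _ => (hw t).1)
      rw [Finset.sum_pair (Ne.symm ht1), Finset.sum_sub_distrib, ← Finset.mul_sum] at h2
      have h3 : ((Y.card : ℕ) : ℝ) = ∑ t, ((fib Y t).card : ℝ) := by
        rw [hcard]
        push_cast
        rfl
      have h4 : ((e2 (unG n G) Y : ℕ) : ℝ) = ∑ t, (e2 (G t) (fib Y t) : ℝ) := by
        rw [he2]
        push_cast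
        rfl
      rw [h3, h4]
      have h5 := (hw x0.1).2 h0
      have h6 := (hw t1).2 h1
      linarith

/-- the sparseness of the graphs `G_q` in the form of `minTwoDensity_le` -/
theorem hub_dens {p Q : ℕ} (hpQ : p ≤ Q) {S : Finset ℕ} (hS : S ⊆ range (7 * Q + 5))
    (h2 : 2 ≤ S.card) :
    (e2 (hub Q) S : ℝ) ≤ 2 + 2 * ((9 * (p : ℝ) + 4) / (7 * p + 3)) * ((S.card : ℝ) - 2) := by
  have hp : (0 : ℝ) ≤ p := Nat.cast_nonneg p
  have hpos : (0 : ℝ) < 7 * (p : ℝ) + 3 := by linarith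
  have hS2 : (2 : ℝ) ≤ S.card := by exact_mod_cast h2
  have hQ : (p : ℝ) ≤ Q := by exact_mod_cast hpQ
  have hgoal : ((e2 (hub Q) S : ℝ) - 2) * (7 * (p : ℝ) + 3) ≤
      2 * (9 * (p : ℝ) + 4) * ((S.card : ℝ) - 2) := by
    rcases hub_sparse hS h2 with h | ⟨h, h'⟩
    · have h3 : 7 * (e2 (hub Q) S : ℝ) + 22 ≤ 18 * S.card := by exact_mod_cast h
      nlinarith
    · have h3 : 7 * (e2 (hub Q) S : ℝ) + 20 ≤ 18 * S.card := by exact_mod_cast h'
      have h4 : (S.card : ℝ) = 7 * Q + 5 := by exact_mod_cast h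
      rw [h4] at h3 ⊢
      nlinarith
  have h5 : (e2 (hub Q) S : ℝ) - 2 ≤
      2 * (9 * (p : ℝ) + 4) * ((S.card : ℝ) - 2) / (7 * (p : ℝ) + 3) := by
    rw [le_div_iff₀ hpos]
    exact hgoal
  have h6 : 2 * ((9 * (p : ℝ) + 4) / (7 * p + 3)) * ((S.card : ℝ) - 2) =
      2 * (9 * (p : ℝ) + 4) * ((S.card : ℝ) - 2) / (7 * (p : ℝ) + 3) := by
    ring
  rw [h6]
  linarith

/-- sizes of the components: all are `q - 1`, the first one takes the rest -/
def szs (i k p : ℕ) : Fin (k + 1) → ℕ := Fin.cons (i - (k + 1) - k * p) (fun _ => p)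

theorem sum_szs {i k p : ℕ} (h : (k + 1) * (p + 1) ≤ i) :
    ∑ t, szs i k p t + (k + 1) = i := by
  unfold szs
  rw [Fin.sum_univ_succ, Fin.cons_zero]
  simp only [Fin.cons_succ, Finset.sum_const, Finset.card_univ, Fintype.card_fin, smul_eq_mul]
  have h1 : (k + 1) * (p + 1) = k * p + p + (k + 1) := by ring
  omega

theorem szs_ge {i k p : ℕ} (h : (k + 1) * (p + 1) ≤ i) (t : Fin (k + 1)) :
    p ≤ szs i k p t := by
  unfold szs
  refine Fin.cases ?_ (fun t => ?_) t
  · rw [Fin.cons_zero]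
    have h1 : (k + 1) * (p + 1) = k * p + p + (k + 1) := by ring
    omega
  · rw [Fin.cons_succ]

/-- the upper bound by `3 i - s` disjoint graphs `G_{q_t}`, all `q_t ≥ q` -/
theorem upperG (s i q : ℕ) (hq : 1 ≤ q) (h1 : s < 3 * i) (h2 : q * (3 * i - s) ≤ i) :
    minTwoDensity (2 * s + i) (s + 1) ≤ (9 * (q : ℝ) - 5) / (7 * q - 4) := by
  obtain ⟨p, rfl⟩ : ∃ p, q = p + 1 := ⟨q - 1, by omega⟩
  obtain ⟨k, hk⟩ : ∃ k, 3 * i - s = k + 1 := ⟨3 * i - s - 1, by omega⟩
  rw [hk] at h2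
  have h3 : (k + 1) * (p + 1) ≤ i := by
    rw [Nat.mul_comm]
    exact h2
  have hsum := sum_szs h3
  have hp : (0 : ℝ) ≤ p := Nat.cast_nonneg p
  have hpos : (0 : ℝ) < 7 * (p : ℝ) + 3 := by linarith
  have hform : (9 * ((p + 1 : ℕ) : ℝ) - 5) / (7 * ((p + 1 : ℕ) : ℝ) - 4) =
      (9 * (p : ℝ) + 4) / (7 * p + 3) := by
    push_cast
    congr 1 <;> ring
  rw [hform]
  refine union_le (n := fun t => 7 * szs i k p t + 5) (fun t => 3 * szs i k p t + 2)
    (fun t => hub (szs i k p t)) ?_ ?_ ?_ ?_ ?_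
  · rw [le_div_iff₀ hpos]
    linarith
  · rw [Finset.sum_add_distrib, ← Finset.mul_sum]
    simp only [Finset.sum_const, Finset.card_univ, Fintype.card_fin, smul_eq_mul]
    omega
  · rw [Finset.sum_add_distrib, ← Finset.mul_sum]
    simp only [Finset.sum_const, Finset.card_univ, Fintype.card_fin, smul_eq_mul]
    omega
  · intro t S hS hI
    exact hub_alpha hS hI
  · intro t S hS hS2
    exact hub_dens (szs_ge h3 t) hS hS2

end Pool.Agent.TwoDens.K3A
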